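import Mathlib

/-!
# MP_cbbe60_co: EKR property for vertex sets of partial matchings with singletons

The family `H^{(p,s)}(n)` is `(2p+s)`-EKR for all `p, s ≥ 0` and all `n ≥ 2p + s`.
-/

set_option autoImplicit false

open Finset

namespace Pool.Agent.Results.MP_cbbe60_co.AllParameters

/-- the vertices of `n K_2`: `(i, false)` is `a_i` and `(i, true)` is `b_i` -/
abbrev Vert (n : ℕ) := Fin n × Bool

/-- the edges `a_i b_i` both of whose ends are in `S` -/
def full {n : ℕ} (S : Finset (Vert n)) : Finset (Fin n) :=
  univ.filter (fun i => (i, false) ∈ S ∧ (i, true) ∈ S)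

/-- the edges `a_i b_i` exactly one of whose ends is in `S` -/
def half {n : ℕ} (S : Finset (Vert n)) : Finset (Fin n) :=
  univ.filter (fun i => ¬ ((i, false) ∈ S ↔ (i, true) ∈ S))

/-- `H^{(p,s)}(n)`: the sets that contain both ends of exactly `p` edges and exactly one end of
`s` further edges -/
def H (n p s : ℕ) : Finset (Finset (Vert n)) :=
  univ.filter (fun S => #(full S) = p ∧ #(half S) = s)

/-- any two members share a vertex -/
def Intersecting {n : ℕ} (F : Finset (Finset (Vert n))) : Prop :=
  ∀ A ∈ F, ∀ B ∈ F, (A ∩ B).Nonempty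

/-- the star `H_x` -/
def star (n p s : ℕ) (x : Vert n) : Finset (Finset (Vert n)) := (H n p s).filter (fun S => x ∈ S)

variable {n : ℕ}

lemma mem_H {p s : ℕ} {S : Finset (Vert n)} : S ∈ H n p s ↔ #(full S) = p ∧ #(half S) = s := by
  simp [H]

lemma mem_full {S : Finset (Vert n)} {i : Fin n} :
    i ∈ full S ↔ (i, false) ∈ S ∧ (i, true) ∈ S := by
  simp [full]

lemma mem_half {S : Finset (Vert n)} {i : Fin n} :
    i ∈ half S ↔ ¬ ((i, false) ∈ S ↔ (i, true) ∈ S) := by
  simp [half]

/-! ### The automorphisms -/

/-- the automorphism that permutes the edges by `π` and exchanges the ends of the edges `i` with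
`ε i = true` (before applying `π`) -/
def aut (π : Equiv.Perm (Fin n)) (ε : Fin n → Bool) : Equiv.Perm (Vert n) where
  toFun v := (π v.1, xor v.2 (ε v.1))
  invFun v := (π.symm v.1, xor v.2 (ε (π.symm v.1)))
  left_inv v := by
    obtain ⟨i, c⟩ := v
    simp
  right_inv v := by
    obtain ⟨i, c⟩ := v
    simp

/-- the group of automorphisms, as a set of permutations -/
def G (n : ℕ) : Finset (Equiv.Perm (Vert n)) :=
  univ.filter (fun g => ∀ i c, (g (i, !c)) = ((g (i, c)).1, !(g (i, c)).2))

lemma mem_G {g : Equiv.Perm (Vert n)} :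
    g ∈ G n ↔ ∀ i c, (g (i, !c)) = ((g (i, c)).1, !(g (i, c)).2) := by
  simp [G]

lemma aut_mem_G (π : Equiv.Perm (Fin n)) (ε : Fin n → Bool) : aut π ε ∈ G n := by
  rw [mem_G]
  intro i c
  simp [aut]

lemma mul_mem_G {g h : Equiv.Perm (Vert n)} (hg : g ∈ G n) (hh : h ∈ G n) : g * h ∈ G n := by
  rw [mem_G] at hg hh ⊢
  intro i c
  rw [Equiv.Perm.mul_apply, Equiv.Perm.mul_apply, hh i c, hg (h (i, c)).1 (h (i, c)).2]

lemma inv_mem_G {g : Equiv.Perm (Vert n)} (hg : g ∈ G n) : g⁻¹ ∈ G n := by
  rw [mem_G] at hg ⊢
  intro i c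
  rw [Equiv.Perm.inv_eq_iff_eq]
  have h1 := hg (g⁻¹ (i, c)).1 (g⁻¹ (i, c)).2
  rw [h1]
  simp

lemma full_image {g : Equiv.Perm (Vert n)} (hg : g ∈ G n) (S : Finset (Vert n)) :
    #(full (S.image g)) = #(full S) ∧ #(half (S.image g)) = #(half S) := by
  classical
  rw [mem_G] at hg
  -- the induced map on the edges
  have key : ∀ i : Fin n, ∀ c : Bool, (g (i, c)).1 = (g (i, false)).1 := by
    intro i c
    cases c
    · rfl
    · have := hg i false
      rw [Bool.not_false] at this
      rw [this]
  let e : Fin n → Fin n := fun i => (g (i, false)).1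
  have he : Function.Injective e := by
    intro i j hij
    have h1 : g (i, false) = g (j, false) ∨ g (i, false) = g (j, true) := by
      have h2 := hg j false
      rw [Bool.not_false] at h2
      rcases Bool.eq_or_eq_not (g (i, false)).2 (g (j, false)).2 with h3 | h3
      · left
        exact Prod.ext hij h3
      · right
        rw [h2]
        exact Prod.ext hij h3
    rcases h1 with h1 | h1
    · exact congrArg Prod.fst (g.injective h1)
    · exact congrArg Prod.fst (g.injective h1)
  have hmem : ∀ v, g v ∈ S.image g ↔ v ∈ S := by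
    intro v
    rw [mem_image]
    constructor
    · rintro ⟨w, hw, h⟩
      rwa [← g.injective h]
    · intro h
      exact ⟨v, h, rfl⟩
  have hpair : ∀ i, (((e i, false) ∈ S.image g ∧ (e i, true) ∈ S.image g) ↔
      ((i, false) ∈ S ∧ (i, true) ∈ S)) ∧
      ((¬ ((e i, false) ∈ S.image g ↔ (e i, true) ∈ S.image g)) ↔
      (¬ ((i, false) ∈ S ↔ (i, true) ∈ S))) := by
    intro i
    have h2 := hg i false
    rw [Bool.not_false] at h2
    have hf := hmem (i, false)
    have ht := hmem (i, true)
    rw [h2] at ht
    have h3 : g (i, false) = (e i, (g (i, false)).2) := rfl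
    rw [h3] at hf
    have h4 : ((g (i, false)).1, !(g (i, false)).2) = (e i, !(g (i, false)).2) := rfl
    rw [h4] at ht
    rcases Bool.eq_false_or_eq_true (g (i, false)).2 with h5 | h5
    · rw [h5] at hf ht
      rw [Bool.not_true] at ht
      rw [hf, ht]
      tauto
    · rw [h5] at hf ht
      rw [Bool.not_false] at ht
      rw [hf, ht]
      tauto
  have hsurj : Function.Surjective e := Finite.surjective_of_injective he
  constructor
  · symm
    apply card_bij (fun i _ => e i)
    · intro i hi
      rw [mem_full] at hi ⊢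
      exact (hpair i).1.2 hi
    · intro i _ j _ h
      exact he h
    · intro j hj
      obtain ⟨i, rfl⟩ := hsurj j
      refine ⟨i, ?_, rfl⟩
      rw [mem_full] at hj ⊢
      exact (hpair i).1.1 hj
  · symm
    apply card_bij (fun i _ => e i)
    · intro i hi
      rw [mem_half] at hi ⊢
      exact (hpair i).2.2 hi
    · intro i _ j _ h
      exact he h
    · intro j hj
      obtain ⟨i, rfl⟩ := hsurj j
      refine ⟨i, ?_, rfl⟩
      rw [mem_half] at hj ⊢
      exact (hpair i).2.1 hj

/-- the state of an edge -/
def state (S : Finset (Vert n)) (i : Fin n) : Fin 3 :=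
  if (i, false) ∈ S ∧ (i, true) ∈ S then 2 else if (i, false) ∈ S ∨ (i, true) ∈ S then 1 else 0

lemma card_state (S : Finset (Vert n)) :
    #(univ.filter (fun i => state S i = 2)) = #(full S) ∧
    #(univ.filter (fun i => state S i = 1)) = #(half S) ∧
    #(univ.filter (fun i => state S i = 0)) + #(full S) + #(half S) = n := by
  classical
  have h2 : univ.filter (fun i => state S i = 2) = full S := by
    ext i
    rw [mem_filter, mem_full]
    unfold state
    split_ifs with h1 h2 <;> simp_all
  have h1 : univ.filter (fun i => state S i = 1) = half S := by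
    ext i
    rw [mem_filter, mem_half]
    unfold state
    split_ifs with h1 h2 <;> simp_all
    tauto
  refine ⟨by rw [h2], by rw [h1], ?_⟩
  have h3 : (univ : Finset (Fin n)).card = ∑ c : Fin 3, #(univ.filter (fun i => state S i = c)) :=
    card_eq_sum_card_fiberwise (fun i _ => mem_coe.2 (mem_univ _))
  rw [card_univ, Fintype.card_fin, Fin.sum_univ_three, h1, h2] at h3
  omega

/-- the automorphisms act transitively on `H^{(p,s)}(n)` -/
lemma transitive {p s : ℕ} {S T : Finset (Vert n)} (hS : S ∈ H n p s) (hT : T ∈ H n p s) :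
    ∃ g ∈ G n, S.image g = T := by
  classical
  rw [mem_H] at hS hT
  have cS := card_state S
  have cT := card_state T
  have hfib : ∀ c : Fin 3, Nonempty ({i // state S i = c} ≃ {i // state T i = c}) := by
    intro c
    rw [← Fintype.card_eq, Fintype.card_subtype, Fintype.card_subtype]
    fin_cases c
    · show #(univ.filter (fun i => state S i = 0)) = #(univ.filter (fun i => state T i = 0))
      omega
    · show #(univ.filter (fun i => state S i = 1)) = #(univ.filter (fun i => state T i = 1))
      omega
    · show #(univ.filter (fun i => state S i = 2)) = #(univ.filter (fun i => state T i = 2))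
      omega
  let π : Equiv.Perm (Fin n) := Equiv.ofFiberEquiv (fun c => (hfib c).some)
  have hπ : ∀ i, state T (π i) = state S i := fun i => Equiv.ofFiberEquiv_map _ i
  let ε : Fin n → Bool := fun i => xor (decide ((i, false) ∈ S)) (decide ((π i, false) ∈ T))
  have key : ∀ i c, (i, c) ∈ S ↔ (π i, xor c (ε i)) ∈ T := by
    intro i c
    have h1 := hπ i
    unfold state at h1
    simp only [ε]
    by_cases a1 : (i, false) ∈ S <;> by_cases a2 : (i, true) ∈ S <;>
      by_cases b1 : (π i, false) ∈ T <;> by_cases b2 : (π i, true) ∈ T <;>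
      simp only [a1, a2, b1, b2, and_self, and_true, and_false, or_self,
        or_true, or_false, if_true, if_false] at h1 <;>
      first
        | exact absurd h1 (by decide)
        | (cases c <;> simp [a1, a2, b1, b2])
  refine ⟨aut π ε, aut_mem_G π ε, ?_⟩
  ext ⟨j, d⟩
  rw [mem_image]
  constructor
  · rintro ⟨⟨i, c⟩, hv, h⟩
    rw [← h]
    exact (key i c).1 hv
  · intro hv
    refine ⟨(aut π ε).symm (j, d), ?_, Equiv.apply_symm_apply _ _⟩
    have h1 : aut π ε ((aut π ε).symm (j, d)) = (j, d) := Equiv.apply_symm_apply _ _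
    generalize (aut π ε).symm (j, d) = w at h1
    obtain ⟨i, c⟩ := w
    rw [key i c]
    have h2 : aut π ε (i, c) = (π i, xor c (ε i)) := rfl
    rw [h2] at h1
    rw [h1]
    exact hv

lemma image_mem_H {p s : ℕ} {g : Equiv.Perm (Vert n)} (hg : g ∈ G n) {S : Finset (Vert n)}
    (hS : S ∈ H n p s) : S.image g ∈ H n p s := by
  rw [mem_H] at hS ⊢
  rw [(full_image hg S).1, (full_image hg S).2]
  exact hS

/-- the number of automorphisms carrying a member of `H` into a subfamily `F` -/
lemma card_G_mul {p s : ℕ} {S : Finset (Vert n)} (hS : S ∈ H n p s)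
    (F : Finset (Finset (Vert n))) (hF : F ⊆ H n p s) :
    #(H n p s) * #((G n).filter (fun g : Equiv.Perm (Vert n) => S.image g ∈ F)) = #F * #(G n) := by
  classical
  -- all the fibres have the same size
  have hfib : ∀ A ∈ H n p s, ∀ B ∈ H n p s,
      #((G n).filter (fun g : Equiv.Perm (Vert n) => S.image g = A)) = #((G n).filter (fun g : Equiv.Perm (Vert n) => S.image g = B)) := by
    intro A hA B hB
    obtain ⟨h, hh, hAB⟩ := transitive hA hB
    apply card_bij (fun g _ => h * g)
    · intro g hg
      rw [mem_filter] at hg ⊢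
      refine ⟨mul_mem_G hh hg.1, ?_⟩
      rw [← hAB, ← hg.2, image_image]
      rfl
    · intro g _ g' _ h1
      exact mul_left_cancel h1
    · intro g hg
      rw [mem_filter] at hg
      refine ⟨h⁻¹ * g, mem_filter.2 ⟨mul_mem_G (inv_mem_G hh) hg.1, ?_⟩, mul_inv_cancel_left _ _⟩
      have h1 : S.image (h⁻¹ * g : Equiv.Perm (Vert n)) = (S.image g).image (h⁻¹ : Equiv.Perm _) := by
        rw [image_image]
        rfl
      rw [h1, hg.2, ← hAB, image_image]
      have h2 : (⇑(h⁻¹) ∘ ⇑h) = id := by
        funext v
        simp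
      rw [h2, image_id]
  obtain ⟨c, hc⟩ : ∃ c, ∀ A ∈ H n p s, #((G n).filter (fun g : Equiv.Perm (Vert n) => S.image g = A)) = c :=
    ⟨_, fun A hA => hfib A hA S hS⟩
  have count : ∀ F : Finset (Finset (Vert n)), F ⊆ H n p s →
      #((G n).filter (fun g : Equiv.Perm (Vert n) => S.image g ∈ F)) = #F * c := by
    intro F hF
    have h1 : (G n).filter (fun g : Equiv.Perm (Vert n) => S.image g ∈ F) =
        F.biUnion (fun A => (G n).filter (fun g : Equiv.Perm (Vert n) => S.image g = A)) := by
      ext g
      rw [mem_filter, mem_biUnion]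
      constructor
      · rintro ⟨h1, h2⟩
        exact ⟨_, h2, mem_filter.2 ⟨h1, rfl⟩⟩
      · rintro ⟨A, hA, h2⟩
        rw [mem_filter] at h2
        rw [h2.2]
        exact ⟨h2.1, hA⟩
    rw [h1, card_biUnion, sum_congr rfl (fun A hA => hc A (hF hA)), sum_const, smul_eq_mul]
    intro A _ B _ hAB
    rw [Function.onFun, disjoint_left]
    intro g h1 h2
    exact hAB ((mem_filter.1 h1).2.symm.trans (mem_filter.1 h2).2)
  have hG : #(G n) = #(H n p s) * c := by
    rw [← count (H n p s) (Subset.refl _)]
    congr 1
    symm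
    apply filter_true_of_mem
    intro g hg
    exact image_mem_H hg hS
  rw [count F hF, hG]
  ring

/-! ### The cyclic sequence of members -/

/-- position of a vertex on a circle with `2 n` places: `a_j` at `2 j`, `b_j` at `2 j + s` -/
def pos (n s : ℕ) (v : Vert n) : ℕ :=
  if v.2 = false then 2 * v.1.1 else if 2 * v.1.1 + s < 2 * n then 2 * v.1.1 + s
    else 2 * v.1.1 + s - 2 * n

/-- distance from the place `t` forward to the place `x` -/
def off (n x t : ℕ) : ℕ := if t ≤ x then x - t else x + 2 * n - t

/-- the vertices on the `2 p + s` places from `t` on -/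
def seg (n p s t : ℕ) : Finset (Vert n) :=
  univ.filter (fun v => off n (pos n s v) t < 2 * p + s)

lemma mem_seg {p s t : ℕ} {v : Vert n} :
    v ∈ seg n p s t ↔ off n (pos n s v) t < 2 * p + s := by
  simp [seg]

lemma mem_seg_false {p s t : ℕ} {j : Fin n} :
    (j, false) ∈ seg n p s t ↔ off n (2 * j.1) t < 2 * p + s := by
  rw [mem_seg]
  simp [pos]

lemma mem_seg_true {p s t : ℕ} {j : Fin n} (hn : 2 * p + s ≤ n) (ht : t < 2 * n) :
    (j, true) ∈ seg n p s t ↔
      (off n (2 * j.1) t < 2 * p ∨ 2 * n ≤ off n (2 * j.1) t + s) := by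
  rw [mem_seg]
  have hj := j.2
  unfold pos off
  simp only [Bool.true_eq_false, if_false]
  split_ifs <;> omega

/-- the edge whose first vertex is at distance `y` from `t` -/
lemma exists_edge (t y : ℕ) (ht : t < 2 * n) (hy : y < 2 * n) (hpar : (t + y) % 2 = 0) :
    ∃ j : Fin n, off n (2 * j.1) t = y := by
  by_cases h : t + y < 2 * n
  · refine ⟨⟨(t + y) / 2, by omega⟩, ?_⟩
    show off n (2 * ((t + y) / 2)) t = y
    unfold off
    split_ifs <;> omega
  · refine ⟨⟨(t + y - 2 * n) / 2, by omega⟩, ?_⟩
    show off n (2 * ((t + y - 2 * n) / 2)) t = y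
    unfold off
    split_ifs <;> omega

lemma off_inj {t : ℕ} (ht : t < 2 * n) {i j : Fin n} (h : off n (2 * i.1) t = off n (2 * j.1) t) :
    i = j := by
  have hi := i.2
  have hj := j.2
  apply Fin.ext
  unfold off at h
  split_ifs at h <;> omega

lemma off_lt {t : ℕ} (ht : t < 2 * n) (j : Fin n) : off n (2 * j.1) t < 2 * n := by
  have hj := j.2
  unfold off
  split_ifs <;> omega

lemma off_parity {t : ℕ} (ht : t < 2 * n) (j : Fin n) : (t + off n (2 * j.1) t) % 2 = 0 := by
  have hj := j.2
  unfold off
  split_ifs <;> omega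

/-- every member of the cyclic sequence belongs to `H^{(p,s)}(n)` -/
lemma seg_mem_H {p s t : ℕ} (hn : 2 * p + s ≤ n) (ht : t < 2 * n) : seg n p s t ∈ H n p s := by
  classical
  rw [mem_H]
  constructor
  · -- the full edges are those with `off < 2 p`
    have h1 : #(range p) = #(full (seg n p s t)) := by
      symm
      apply card_bij (fun j _ => off n (2 * j.1) t / 2)
      · intro j hj
        rw [mem_full, mem_seg_false, mem_seg_true hn ht] at hj
        have := off_lt ht j
        rw [mem_range]
        omega
      · intro i hi j hj h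
        have h1 := off_parity ht i
        have h2 := off_parity ht j
        apply off_inj ht
        omega
      · intro b hb
        rw [mem_range] at hb
        obtain ⟨j, hj⟩ := exists_edge t (2 * b + t % 2) ht (by omega) (by omega)
        refine ⟨j, ?_, by omega⟩
        rw [mem_full, mem_seg_false, mem_seg_true hn ht, hj]
        omega
    rw [← h1, card_range]
  · have h1 : #(range s) = #(half (seg n p s t)) := by
      symm
      apply card_bij (fun j _ => if off n (2 * j.1) t < 2 * p + s then off n (2 * j.1) t - 2 * p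
        else 2 * n - 1 - off n (2 * j.1) t)
      · intro j hj
        rw [mem_half, mem_seg_false, mem_seg_true hn ht] at hj
        have := off_lt ht j
        rw [mem_range]
        split_ifs <;> omega
      · intro i hi j hj h
        rw [mem_half, mem_seg_false, mem_seg_true hn ht] at hi hj
        have h1 := off_parity ht i
        have h2 := off_parity ht j
        have h3 := off_lt ht i
        have h4 := off_lt ht j
        apply off_inj ht
        beta_reduce at h
        split_ifs at h <;> omega
      · intro b hb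
        rw [mem_range] at hb
        by_cases hpar : (t + b) % 2 = 0
        · obtain ⟨j, hj⟩ := exists_edge t (2 * p + b) ht (by omega) (by omega)
          refine ⟨j, ?_, ?_⟩
          · rw [mem_half, mem_seg_false, mem_seg_true hn ht, hj]
            omega
          · rw [hj, if_pos (by omega)]
            omega
        · obtain ⟨j, hj⟩ := exists_edge t (2 * n - 1 - b) ht (by omega) (by omega)
          refine ⟨j, ?_, ?_⟩
          · rw [mem_half, mem_seg_false, mem_seg_true hn ht, hj]
            omega
          · rw [hj, if_neg (by omega)]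
            omega
    rw [← h1, card_range]

lemma pos_lt {s : ℕ} (hs : s ≤ n) (v : Vert n) : pos n s v < 2 * n := by
  have := v.1.2
  unfold pos
  split_ifs <;> omega

/-- two members of the sequence at distance at least `2 p + s` are disjoint -/
lemma seg_disjoint {p s t t' : ℕ} (hn : 2 * p + s ≤ n) (ht : t < 2 * n) (ht' : t' < 2 * n)
    (h1 : t + (2 * p + s) ≤ t') (h2 : t' + (2 * p + s) ≤ t + 2 * n) :
    seg n p s t ∩ seg n p s t' = ∅ := by
  rw [← disjoint_iff_inter_eq_empty, disjoint_left]
  intro v hv hv'
  rw [mem_seg] at hv hv'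
  have h3 := pos_lt (s := s) (n := n) (by omega) v
  unfold off at hv hv'
  split_ifs at hv hv' <;> omega

/-- Katona's cycle argument -/
lemma cycle (n L : ℕ) (hL : L ≤ n) (T : Finset ℕ) (hT : ∀ t ∈ T, t < 2 * n)
    (hd : ∀ t ∈ T, ∀ t' ∈ T, t + L ≤ t' → t' + L ≤ t + 2 * n → False) : #T ≤ L := by
  rcases T.eq_empty_or_nonempty with rfl | ⟨t₀, ht₀⟩
  · simp
  have h0 := hT t₀ ht₀
  have hL1 : 1 ≤ L := by
    by_contra h
    exact hd t₀ ht₀ t₀ ht₀ (by omega) (by omega)
  have hd' : ∀ t ∈ T, ∀ t' ∈ T, t' < t + L ∨ t + 2 * n < t' + L := by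
    intro t ht t' ht'
    by_contra h
    exact hd t ht t' ht' (by omega) (by omega)
  have key : #T ≤ #(range L) := by
    apply card_le_card_of_injOn (fun t =>
      if off n t t₀ < L then off n t t₀ else off n t t₀ - (2 * n - L))
    · intro t ht
      have h1 := hT t ht
      have h2 := hd' t₀ ht₀ t ht
      have h3 := hd' t ht t₀ ht₀
      rw [mem_coe, mem_range]
      show (if off n t t₀ < L then off n t t₀ else off n t t₀ - (2 * n - L)) < L
      unfold off
      split_ifs <;> omega
    · intro t ht t' ht' h
      have h1 := hT t ht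
      have h1' := hT t' ht'
      have h2 := hd' t₀ ht₀ t ht
      have h3 := hd' t ht t₀ ht₀
      have h2' := hd' t₀ ht₀ t' ht'
      have h3' := hd' t' ht' t₀ ht₀
      have h4 := hd' t ht t' ht'
      have h5 := hd' t' ht' t ht
      beta_reduce at h
      unfold off at h
      split_ifs at h <;> omega
  rwa [card_range] at key

/-- the bound `|F| / |H| ≤ (2 p + s) / (2 n)` -/
lemma bound {p s : ℕ} (hn : 2 * p + s ≤ n) (F : Finset (Finset (Vert n))) (hF : F ⊆ H n p s)
    (hI : Intersecting F) : 2 * n * #F ≤ (2 * p + s) * #(H n p s) := by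
  classical
  have hGpos : 0 < #(G n) := card_pos.2 ⟨aut 1 (fun _ => false), aut_mem_G _ _⟩
  -- double count the pairs `(t, g)` with `g (seg t) ∈ F`
  have h1 : ∑ t ∈ range (2 * n), #((G n).filter (fun g : Equiv.Perm (Vert n) => (seg n p s t).image g ∈ F)) =
      ∑ g ∈ G n, #((range (2 * n)).filter (fun t => (seg n p s t).image g ∈ F)) := by
    simp only [card_filter]
    rw [sum_comm]
  have h2 : ∀ g ∈ G n, #((range (2 * n)).filter (fun t => (seg n p s t).image g ∈ F)) ≤
      2 * p + s := by
    intro g _
    apply cycle n (2 * p + s) hn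
    · intro t ht
      exact mem_range.1 (mem_filter.1 ht).1
    · intro t ht t' ht' h3 h4
      rw [mem_filter, mem_range] at ht ht'
      have h5 := seg_disjoint hn ht.1 ht'.1 h3 h4
      obtain ⟨x, hx⟩ := hI _ ht.2 _ ht'.2
      rw [← image_inter _ _ g.injective, h5, image_empty] at hx
      exact notMem_empty _ hx
  have h3 : #(H n p s) * ∑ t ∈ range (2 * n), #((G n).filter
      (fun g : Equiv.Perm (Vert n) => (seg n p s t).image g ∈ F)) = 2 * n * (#F * #(G n)) := by
    rw [mul_sum]
    rw [sum_congr rfl (fun t ht => card_G_mul (seg_mem_H hn (mem_range.1 ht)) F hF), sum_const,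
      card_range, smul_eq_mul]
  have h4 : ∑ g ∈ G n, #((range (2 * n)).filter (fun t => (seg n p s t).image g ∈ F)) ≤
      #(G n) * (2 * p + s) := by
    calc _ ≤ ∑ _g ∈ G n, (2 * p + s) := sum_le_sum h2
      _ = _ := by rw [sum_const, smul_eq_mul]
  rw [h1] at h3
  have h5 : 2 * n * (#F * #(G n)) ≤ #(H n p s) * (#(G n) * (2 * p + s)) := by
    rw [← h3]
    exact Nat.mul_le_mul_left _ h4
  have h6 : #(G n) * (2 * n * #F) ≤ #(G n) * ((2 * p + s) * #(H n p s)) := by
    calc #(G n) * (2 * n * #F) = 2 * n * (#F * #(G n)) := by ring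
      _ ≤ #(H n p s) * (#(G n) * (2 * p + s)) := h5
      _ = #(G n) * ((2 * p + s) * #(H n p s)) := by ring
  exact Nat.le_of_mul_le_mul_left h6 hGpos

lemma card_member {p s : ℕ} {S : Finset (Vert n)} (hS : S ∈ H n p s) : #S = 2 * p + s := by
  classical
  rw [mem_H] at hS
  have h1 : #S = ∑ i : Fin n, #(S.filter (fun v => v.1 = i)) :=
    card_eq_sum_card_fiberwise (fun v _ => mem_coe.2 (mem_univ _))
  have h2 : ∀ i : Fin n, #(S.filter (fun v => v.1 = i)) =
      (if i ∈ full S then 2 else 0) + (if i ∈ half S then 1 else 0) := by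
    intro i
    have h3 : S.filter (fun v => v.1 = i) =
        (univ : Finset Bool).image (fun c => (i, c)) ∩ S := by
      ext ⟨j, c⟩
      rw [mem_filter, mem_inter, mem_image]
      constructor
      · rintro ⟨h, h'⟩
        exact ⟨⟨c, mem_univ _, Prod.ext h'.symm rfl⟩, h⟩
      · rintro ⟨⟨d, -, h'⟩, h⟩
        exact ⟨h, (congrArg Prod.fst h').symm⟩
    rw [h3]
    have h4 : (univ : Finset Bool).image (fun c => (i, c)) = {(i, true), (i, false)} := by
      ext ⟨j, c⟩
      cases c <;> simp [eq_comm]
    rw [h4]
    by_cases a : (i, false) ∈ S <;> by_cases b : (i, true) ∈ S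
    · rw [if_pos (mem_full.2 ⟨a, b⟩), if_neg (by rw [mem_half]; tauto)]
      rw [inter_eq_left.2 (by
        intro v hv
        rw [mem_insert, mem_singleton] at hv
        rcases hv with rfl | rfl
        · exact b
        · exact a)]
      rw [card_pair (by simp)]
    · rw [if_neg (by rw [mem_full]; tauto), if_pos (by rw [mem_half]; tauto),
        insert_inter_of_notMem b, singleton_inter_of_mem a, card_singleton]
    · rw [if_neg (by rw [mem_full]; tauto), if_pos (by rw [mem_half]; tauto),
        insert_inter_of_mem b, singleton_inter_of_notMem a]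
      rfl
    · rw [if_neg (by rw [mem_full]; tauto), if_neg (by rw [mem_half]; tauto),
        insert_inter_of_notMem b, singleton_inter_of_notMem a, card_empty]
  rw [h1, sum_congr rfl (fun i _ => h2 i), sum_add_distrib, ← sum_filter, ← sum_filter, sum_const,
    sum_const, smul_eq_mul, smul_eq_mul, filter_mem_eq_inter, filter_mem_eq_inter, univ_inter,
    univ_inter, hS.1, hS.2]
  omega

/-- **`H^{(p,s)}(n)` is `(2p+s)`-EKR for all `p, s ≥ 0` and all `n ≥ 2p + s`**: every intersecting
subfamily has at most `max_x |H_x|` members. -/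
theorem result (n p s : ℕ) (hn : 2 * p + s ≤ n) (F : Finset (Finset (Vert n)))
    (hF : F ⊆ H n p s) (hI : Intersecting F) :
    #F ≤ (univ : Finset (Vert n)).sup (fun x => #(star n p s x)) := by
  classical
  have h1 := bound hn F hF hI
  have h2 : ∑ x : Vert n, #(star n p s x) = (2 * p + s) * #(H n p s) := by
    unfold star
    simp only [card_filter]
    rw [sum_comm]
    have h3 : ∀ S ∈ H n p s, ∑ x : Vert n, (if x ∈ S then 1 else 0) = 2 * p + s := by
      intro S hS
      rw [← card_filter, filter_mem_eq_inter, univ_inter, card_member hS]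
    rw [sum_congr rfl h3, sum_const, smul_eq_mul, mul_comm]
  have h4 : ∑ x : Vert n, #(star n p s x) ≤
      2 * n * (univ : Finset (Vert n)).sup (fun x => #(star n p s x)) := by
    calc ∑ x : Vert n, #(star n p s x)
        ≤ ∑ _x : Vert n, (univ : Finset (Vert n)).sup (fun x => #(star n p s x)) :=
          sum_le_sum (fun x hx => le_sup (f := fun x => #(star n p s x)) hx)
      _ = _ := by
        rw [sum_const, card_univ, Fintype.card_prod, Fintype.card_fin, Fintype.card_bool,
          smul_eq_mul, mul_comm n 2]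
  rcases Nat.eq_zero_or_pos n with h0 | h0
  · -- no vertices: the only set is empty and an intersecting family has no member
    subst h0
    have : F = ∅ := by
      by_contra hne
      obtain ⟨A, hA⟩ := nonempty_iff_ne_empty.2 hne
      obtain ⟨x, -⟩ := hI A hA A hA
      exact x.1.elim0
    rw [this]
    exact Nat.zero_le _
  · have h5 : 2 * n * #F ≤ 2 * n * (univ : Finset (Vert n)).sup (fun x => #(star n p s x)) :=
      h1.trans (h2 ▸ h4)
    exact Nat.le_of_mul_le_mul_left h5 (by omega)

end Pool.Agent.Results.MP_cbbe60_co.AllParameters
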